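import Pool.Agent.Lib.MP_0a5adf_nt.TP.Interfaces

/-!
Project TAO+, module DENSITY.
-/

set_option autoImplicit false

namespace Pool.Agent.Lib.MP_0a5adf_nt.H1

open Finset Pool.Agent.Lib.MP_0a5adf_nt.TP

/-- The numbers at most `x` whose trajectory stays above `y`. -/
def Stay (d : Bool) (x y : ℝ) : Set ℕ := {n : ℕ | (n : ℝ) ≤ x ∧ ∀ k, y ≤ ((T d)^[k] n : ℝ)}

/-- The same in a dyadic block. -/
def StayBlk (d : Bool) (L : ℕ) (y : ℝ) : Set ℕ :=
  {n : ℕ | 2 ^ L ≤ n ∧ n < 2 ^ (L + 1) ∧ ∀ k, y ≤ ((T d)^[k] n : ℝ)}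

theorem stayBlk_finite (d : Bool) (L : ℕ) (y : ℝ) : (StayBlk d L y).Finite :=
  (Set.finite_lt_nat (2 ^ (L + 1))).subset fun _ h => h.2.1

theorem fail_finite (d : Bool) (L : ℕ) (y lam : ℝ) : (Fail d L y lam).Finite :=
  (Set.finite_lt_nat (2 ^ (L + 1))).subset fun _ h => h.2.1

theorem stayBlk_subset_fail (d : Bool) (L : ℕ) (y lam : ℝ) :
    StayBlk d L y ⊆ Fail d L y lam := by
  rintro n ⟨h1, h2, h3⟩
  refine ⟨h1, h2, ?_⟩
  rintro ⟨k, hk, -⟩
  exact absurd (h3 k) (not_le.mpr hk)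

theorem stayBlk_bound (d : Bool) (c C : ℝ) (hc : 0 < c) (hC : 0 < C)
    (h : ∀ (L : ℕ) (y lam : ℝ), 1 ≤ L → 1 ≤ y → 1 ≤ lam →
      ((Fail d L y lam).ncard : ℝ) ≤ (2 / lam + C / y ^ c) * 2 ^ L)
    (L : ℕ) (y : ℝ) (hy : 1 ≤ y) : ((StayBlk d L y).ncard : ℝ) ≤ (C + 3) / y ^ c * 2 ^ L := by
  have hyc : (1 : ℝ) ≤ y ^ c := Real.one_le_rpow hy hc.le
  have hyc0 : (0 : ℝ) < y ^ c := lt_of_lt_of_le one_pos hyc
  rcases Nat.eq_zero_or_pos L with rfl | hL
  · by_cases hy1 : y ≤ 1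
    · have hy2 : y = 1 := le_antisymm hy1 hy
      have hsub : StayBlk d 0 y ⊆ {1} := by
        rintro n ⟨h1, h2, -⟩
        have h1' : 1 ≤ n := by simpa using h1
        have h2' : n < 2 := by simpa using h2
        have : n = 1 := by omega
        simp [this]
      have hcard : (StayBlk d 0 y).ncard ≤ 1 := by
        have := Set.ncard_le_ncard hsub (Set.finite_singleton 1)
        simpa using this
      have h1 : ((StayBlk d 0 y).ncard : ℝ) ≤ 1 := by exact_mod_cast hcard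
      subst hy2
      rw [Real.one_rpow]
      simp only [div_one, pow_zero, mul_one]
      linarith
    · have hemp : StayBlk d 0 y = ∅ := by
        apply Set.eq_empty_of_forall_notMem
        rintro n ⟨h1, h2, h3⟩
        have h1' : 1 ≤ n := by simpa using h1
        have h2' : n < 2 := by simpa using h2
        have hn : n = 1 := by omega
        have := h3 0
        subst hn
        simp only [Function.iterate_zero, id_eq, Nat.cast_one] at this
        exact hy1 this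
      rw [hemp, Set.ncard_empty]
      simp only [Nat.cast_zero, pow_zero, mul_one]
      positivity
  · have hle : ((StayBlk d L y).ncard : ℝ) ≤ ((Fail d L y (y ^ c)).ncard : ℝ) := by
      exact_mod_cast Set.ncard_le_ncard (stayBlk_subset_fail d L y (y ^ c)) (fail_finite _ _ _ _)
    refine (hle.trans (h L y (y ^ c) hL hy hyc)).trans ?_
    apply mul_le_mul_of_nonneg_right _ (by positivity)
    rw [← add_div]
    apply div_le_div_of_nonneg_right _ hyc0.le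
    linarith

theorem stay_subset (d : Bool) (x y : ℝ) (hy : 1 ≤ y) (l : ℕ) (hl : x < 2 ^ (l + 1)) :
    Stay d x y ⊆ ⋃ L ∈ Finset.range (l + 1), StayBlk d L y := by
  rintro n ⟨h1, h2⟩
  have hn : 1 ≤ n := by
    have := h2 0
    simp only [Function.iterate_zero, id_eq] at this
    have h3 : (1 : ℝ) ≤ n := hy.trans this
    exact_mod_cast h3
  have hn0 : n ≠ 0 := by omega
  have hlt : n < 2 ^ (l + 1) := by
    have : (n : ℝ) < 2 ^ (l + 1) := lt_of_le_of_lt h1 hl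
    exact_mod_cast this
  simp only [Set.mem_iUnion, Finset.mem_range, exists_prop]
  refine ⟨Nat.log 2 n, ?_, Nat.pow_log_le_self 2 hn0, Nat.lt_pow_succ_log_self (by norm_num) n, h2⟩
  exact Nat.log_lt_of_lt_pow hn0 hlt

theorem stay_bound (d : Bool) (c C : ℝ) (hc : 0 < c) (hC : 0 < C)
    (h : ∀ (L : ℕ) (y lam : ℝ), 1 ≤ L → 1 ≤ y → 1 ≤ lam →
      ((Fail d L y lam).ncard : ℝ) ≤ (2 / lam + C / y ^ c) * 2 ^ L)
    (x y : ℝ) (hx : 1 ≤ x) (hy : 1 ≤ y) :
    ((Stay d x y).ncard : ℝ) ≤ 2 * (C + 3) * x / y ^ c := by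
  have hyc0 : (0 : ℝ) < y ^ c := Real.rpow_pos_of_pos (by linarith) c
  obtain ⟨l, hl1, hl2⟩ : ∃ l : ℕ, (2 : ℝ) ^ l ≤ x ∧ x < 2 ^ (l + 1) := by
    have hfl : ⌊x⌋₊ ≠ 0 := by
      have : 1 ≤ ⌊x⌋₊ := Nat.le_floor (by simpa using hx)
      omega
    refine ⟨Nat.log 2 ⌊x⌋₊, ?_, ?_⟩
    · have h1 : 2 ^ Nat.log 2 ⌊x⌋₊ ≤ ⌊x⌋₊ := Nat.pow_log_le_self 2 hfl
      have h2 : ((2 ^ Nat.log 2 ⌊x⌋₊ : ℕ) : ℝ) ≤ (⌊x⌋₊ : ℝ) := by exact_mod_cast h1
      push_cast at h2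
      exact h2.trans (Nat.floor_le (by linarith))
    · have h1 : ⌊x⌋₊ < 2 ^ (Nat.log 2 ⌊x⌋₊ + 1) := Nat.lt_pow_succ_log_self (by norm_num) _
      have h2 : x < (⌊x⌋₊ : ℝ) + 1 := Nat.lt_floor_add_one x
      have h3 : ((⌊x⌋₊ : ℝ) + 1) ≤ ((2 ^ (Nat.log 2 ⌊x⌋₊ + 1) : ℕ) : ℝ) := by
        exact_mod_cast h1
      push_cast at h3
      linarith
  have hfin : (⋃ L ∈ Finset.range (l + 1), StayBlk d L y).Finite :=
    Set.Finite.biUnion (Finset.finite_toSet _) fun L _ => stayBlk_finite d L y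
  have h1 : ((Stay d x y).ncard : ℝ) ≤
      ∑ L ∈ Finset.range (l + 1), ((StayBlk d L y).ncard : ℝ) := by
    have h2 := Set.ncard_le_ncard (stay_subset d x y hy l hl2) hfin
    have h3 := Finset.set_ncard_biUnion_le (Finset.range (l + 1)) (fun L => StayBlk d L y)
    have h4 := h2.trans h3
    exact_mod_cast h4
  refine h1.trans ?_
  have h5 : ∑ L ∈ Finset.range (l + 1), ((StayBlk d L y).ncard : ℝ) ≤
      ∑ L ∈ Finset.range (l + 1), (C + 3) / y ^ c * 2 ^ L :=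
    Finset.sum_le_sum fun L _ => stayBlk_bound d c C hc hC h L y hy
  refine h5.trans ?_
  rw [← Finset.mul_sum]
  have h6 : ∑ L ∈ Finset.range (l + 1), (2 : ℝ) ^ L ≤ 2 * x := by
    have h7 := geom_sum_eq (show (2 : ℝ) ≠ 1 by norm_num) (l + 1)
    rw [h7, pow_succ]
    have : (2 : ℝ) - 1 = 1 := by norm_num
    rw [this, div_one]
    linarith
  calc (C + 3) / y ^ c * ∑ L ∈ Finset.range (l + 1), (2 : ℝ) ^ L
      ≤ (C + 3) / y ^ c * (2 * x) := by
        apply mul_le_mul_of_nonneg_left h6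
        positivity
    _ = 2 * (C + 3) * x / y ^ c := by ring

/-- DENSITY. -/
theorem density (d : Bool) (hfinal : FinalStatement d) : DensityStatement d := by
  obtain ⟨c, C, hc, hC, h⟩ := hfinal
  have key := stay_bound d c C hc hC h
  refine ⟨?_, c, 2 * (C + 3), hc, by positivity, key⟩
  intro g hg
  rw [Metric.tendsto_atTop]
  intro ε hε
  -- choose `y`
  obtain ⟨y, hy1, hy2⟩ : ∃ y : ℝ, 1 ≤ y ∧ 2 * (C + 3) / y ^ c < ε / 2 := by
    have ht : Filter.Tendsto (fun y : ℝ => 2 * (C + 3) / y ^ c) Filter.atTop (nhds 0) :=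
      (tendsto_rpow_atTop hc).const_div_atTop (2 * (C + 3))
    have h1 := ht.eventually (gt_mem_nhds (half_pos hε))
    obtain ⟨y, hy⟩ := (h1.and (Filter.eventually_ge_atTop (1 : ℝ))).exists
    exact ⟨y, hy.2, hy.1⟩
  obtain ⟨N₀, hN₀⟩ := (Filter.tendsto_atTop.mp hg y).exists_forall_of_atTop
  obtain ⟨N₁, hN₁⟩ := exists_nat_gt (2 * (N₀ : ℝ) / ε)
  refine ⟨max N₁ 1, fun N hN => ?_⟩
  have hNN₁ : N₁ ≤ N := (le_max_left _ _).trans hN
  have hN1 : 1 ≤ N := (le_max_right _ _).trans hN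
  have hNr : (1 : ℝ) ≤ N := by exact_mod_cast hN1
  have hNpos : (0 : ℝ) < N := by linarith
  rw [Real.dist_eq, sub_zero, abs_of_nonneg (by positivity), div_lt_iff₀ hNpos]
  have hsub : {n : ℕ | n < N ∧ ∀ k, g n ≤ ((T d)^[k] n : ℝ)} ⊆
      {n : ℕ | n < N₀} ∪ Stay d N y := by
    rintro n ⟨h1, h2⟩
    by_cases hn : n < N₀
    · exact Or.inl hn
    · right
      push Not at hn
      refine ⟨by exact_mod_cast h1.le, fun k => (hN₀ n hn).trans (h2 k)⟩
  have hfinS : (Stay d (N : ℝ) y).Finite :=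
    (Set.finite_le_nat N).subset fun n hn => by
      have : (n : ℝ) ≤ N := hn.1
      exact_mod_cast this
  have h1 : ({n : ℕ | n < N ∧ ∀ k, g n ≤ ((T d)^[k] n : ℝ)}.ncard : ℝ) ≤
      N₀ + ((Stay d (N : ℝ) y).ncard : ℝ) := by
    have h2 := Set.ncard_le_ncard hsub ((Set.finite_lt_nat N₀).union hfinS)
    have h3 := Set.ncard_union_le {n : ℕ | n < N₀} (Stay d (N : ℝ) y)
    have h4 : {n : ℕ | n < N₀}.ncard = N₀ := by
      have : {n : ℕ | n < N₀} = ((Finset.range N₀ : Finset ℕ) : Set ℕ) := by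
        ext n; simp
      rw [this, Set.ncard_coe_finset, Finset.card_range]
    have h5 := h2.trans h3
    rw [h4] at h5
    exact_mod_cast h5
  have h2 := key N y hNr hy1
  have h3 : 2 * (C + 3) * (N : ℝ) / y ^ c = 2 * (C + 3) / y ^ c * N := by ring
  rw [h3] at h2
  have h4 : 2 * (C + 3) / y ^ c * N < ε / 2 * N := by
    exact mul_lt_mul_of_pos_right hy2 hNpos
  have h5 : (N₀ : ℝ) < ε / 2 * N := by
    have h6 : 2 * (N₀ : ℝ) / ε < N := lt_of_lt_of_le hN₁ (by exact_mod_cast hNN₁)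
    rw [div_lt_iff₀ hε] at h6
    linarith
  calc ({n : ℕ | n < N ∧ ∀ k, g n ≤ ((T d)^[k] n : ℝ)}.ncard : ℝ)
      ≤ N₀ + ((Stay d (N : ℝ) y).ncard : ℝ) := h1
    _ < ε / 2 * N + ε / 2 * N := by linarith
    _ = ε * N := by ring

end Pool.Agent.Lib.MP_0a5adf_nt.H1
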